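import Pool.Agent.R534.ID.CardAll
import Pool.Agent.R534.ID.Turing

/-!
# Index sets for differences of two `Π⁰₁` classes

Definitions (in `Pool.Agent.R534.IC.Defs` and `Pool.Agent.R534.ID.*`):
* `EffEnum π`: `π` is an effective enumeration of the primitive recursive functions from codes of
  finite sequences to `{0,1}`; `Q π e = P_e ∩ 2^ω`;
* `Sigma1`, `Pi1`, `Sigma2`, `Pi2`, `Sigma3`, `Pi3`, `Sigma11`, `Pi11`: the arithmetical and
  analytical classes of subsets of `ℕ` (`Sigma11` in Kleene normal form); `D2`: differences of two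
  `Σ⁰₂` sets; `Complete Γ X`: `X` is `Γ`-complete for many-one reducibility;
* `mu`: the uniform product measure on `2^ω ⊆ ω^ω`;
* `LeftCE α`: `α` is the limit of a computable nondecreasing sequence of the form `a n / 2 ^ n`;
  `DCE r`: `r` is a difference of two such reals; `ULCE α`: the uniform version for sequences;
* `dreal A = ∑_{i ∈ A} 2^{-i-1}`;
* `MM R`: the sets `X` with `x ∈ X ↔ α x - β x ∈ R` for uniformly left-c.e. `0 ≤ β ≤ α ≤ 1`;
* `chi A`: characteristic function; `tot`: a total function viewed as a partial one;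
  `cut r`: the dyadic rationals below `r` (coded); `Halt`: the halting set;
  `Nat.RecursiveIn O f`: the relative computability of Mathlib (`f` is recursive in the set `O` of oracles).
-/

namespace Pool.Agent.Results.MP_02df5b_lc.DifferenceIndexSets

open Pool.R534.IC Pool.R534.ID Cardinal

/-- The index set `D(R) = {⟨a, b⟩ : Q_b \ Q_a has R}` of a property `R` of subsets of `2^ω`. -/
def D (π : ℕ → ℕ → Bool) (R : Set (ℕ → ℕ) → Prop) : Set ℕ :=
  {m | R (Q π (Nat.unpair m).2 \ Q π (Nat.unpair m).1)}

theorem result :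
    -- effective enumerations of the primitive recursive functions exist, and for each of them:
    (∃ π : ℕ → ℕ → Bool, EffEnum π) ∧
    ∀ π : ℕ → ℕ → Bool, EffEnum π →
      -- **cardinality properties**: finite cardinals
      (∀ c : ℕ, 1 ≤ c →
        Complete Sigma2 (D π fun S => (c : Cardinal.{0}) ≤ #S) ∧
        Complete Pi2 (D π fun S => #S < (c : Cardinal.{0})) ∧
        Complete D2 (D π fun S => #S = (c : Cardinal.{0}))) ∧
      (∀ c : ℕ,
        Complete Sigma2 (D π fun S => (c : Cardinal.{0}) < #S) ∧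
        Complete Pi2 (D π fun S => #S ≤ (c : Cardinal.{0}))) ∧
      Complete Pi2 (D π fun S => #S = 0) ∧
      -- finite, infinite, countably infinite
      Complete Sigma3 (D π fun S => #S < ℵ₀) ∧
      Complete Pi3 (D π fun S => ℵ₀ ≤ #S) ∧
      Complete Pi11 (D π fun S => #S = ℵ₀) ∧
      -- uncountable cardinals (and `ℵ₀`)
      (∀ κ : Cardinal.{0}, ℵ₀ ≤ κ → κ < 𝔠 →
        Complete Pi11 (D π fun S => #S ≤ κ) ∧ Complete Sigma11 (D π fun S => κ < #S)) ∧
      (∀ κ : Cardinal.{0}, ℵ₀ < κ → κ ≤ 𝔠 →
        Complete Pi11 (D π fun S => #S < κ) ∧ Complete Sigma11 (D π fun S => κ ≤ #S)) ∧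
      Complete Sigma11 (D π fun S => #S = 𝔠) ∧
      (∀ κ : Cardinal.{0}, ℵ₀ < κ → κ < 𝔠 → D π (fun S => #S = κ) = ∅) ∧
      -- **measure properties**
      (∀ r : ℝ, 0 ≤ r → r ≤ 1 →
        -- thresholds which are differences of left-c.e. reals
        (DCE r →
          (r < 1 → Complete Sigma2 (D π fun S => r < mu.real S) ∧
            Complete Pi2 (D π fun S => mu.real S ≤ r)) ∧
          (0 < r → Complete Pi2 (D π fun S => r ≤ mu.real S) ∧
            Complete Sigma2 (D π fun S => mu.real S < r)) ∧
          Complete Pi2 (D π fun S => mu.real S = r)) ∧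
        -- all the other thresholds
        (¬ DCE r →
          D π (fun S => mu.real S = r) = ∅ ∧
          D π (fun S => r ≤ mu.real S) = D π (fun S => r < mu.real S) ∧
          D π (fun S => mu.real S ≤ r) = (D π (fun S => r < mu.real S))ᶜ ∧
          D π (fun S => mu.real S < r) = (D π (fun S => r < mu.real S))ᶜ ∧
          -- the index set is Turing equivalent to `r ⊕ 0'`
          Nat.RecursiveIn {tot (chi (cut r)), tot (chi Halt)}
            (tot (chi (D π fun S => r < mu.real S))) ∧
          Nat.RecursiveIn {tot (chi (D π fun S => r < mu.real S))} (tot (chi (cut r))) ∧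
          Nat.RecursiveIn {tot (chi (D π fun S => r < mu.real S))} (tot (chi Halt)))) ∧
      -- reals with a `Σ⁰₁` or `Π⁰₁` (in particular, computable) digit set are of the first kind
      (∀ A : Set ℕ, Sigma1 A ∨ Pi1 A → DCE (dreal A)) ∧
      -- description valid for all thresholds, and all other sets of measures
      (∀ R : Set ℝ, Complete (MM R) (D π fun S => mu.real S ∈ R)) := by
  refine ⟨⟨stdEnum, exists_effEnum⟩, fun π hπ => ⟨?_, ?_, ?_, ?_, ?_, ?_, ?_, ?_, ?_, ?_, ?_, ?_,
    fun R => mm_complete hπ R⟩⟩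
  · intro c hc
    have e1 : D π (fun S => (c : Cardinal.{0}) ≤ #S) = GeD π c := by
      ext m
      exact nat_le_iff c m
    have e2 : D π (fun S => #S < (c : Cardinal.{0})) = (GeD π c)ᶜ := by
      ext m
      exact (not_le.symm).trans (not_congr (nat_le_iff c m))
    have e3 : D π (fun S => #S = (c : Cardinal.{0})) = GeD π c \ GeD π (c + 1) := by
      ext m
      show #(DD π m) = (c : Cardinal.{0}) ↔ m ∈ GeD π c ∧ m ∉ GeD π (c + 1)
      rw [← nat_le_iff, ← nat_le_iff, not_le]
      constructor
      · intro h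
        rw [h]
        exact ⟨le_rfl, by exact_mod_cast Nat.lt_succ_self c⟩
      · rintro ⟨h1, h2⟩
        obtain ⟨n, hn⟩ := Cardinal.lt_aleph0.1 (h2.trans Cardinal.natCast_lt_aleph0)
        rw [hn] at h1 h2 ⊢
        have h3 : c ≤ n := by exact_mod_cast h1
        have h4 : n < c + 1 := by exact_mod_cast h2
        have h5 : n = c := by omega
        rw [h5]
    rw [e1, e2, e3]
    exact ⟨ge_complete hπ c hc, lt_complete hπ c hc, eq_complete hπ c hc⟩
  · intro c
    have key : ∀ m, ((c : Cardinal.{0}) < #(DD π m)) ↔ m ∈ GeD π (c + 1) := by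
      intro m
      rw [← nat_le_iff, Nat.cast_succ, ← Cardinal.succ_natCast, Order.succ_le_iff]
    have e1 : D π (fun S => (c : Cardinal.{0}) < #S) = GeD π (c + 1) := by
      ext m
      exact key m
    have e2 : D π (fun S => #S ≤ (c : Cardinal.{0})) = (GeD π (c + 1))ᶜ := by
      ext m
      exact (not_lt.symm).trans (not_congr (key m))
    rw [e1, e2]
    exact ⟨ge_complete hπ (c + 1) (by omega), lt_complete hπ (c + 1) (by omega)⟩
  · have e : D π (fun S => #S = 0) = (GeD π 1)ᶜ := by
      ext m
      show #(DD π m) = 0 ↔ ¬ (m ∈ GeD π 1)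
      rw [← nat_le_iff, Nat.cast_one, Cardinal.one_le_iff_ne_zero, not_not]
    rw [e]
    exact lt_complete hπ 1 le_rfl
  · have e : D π (fun S => #S < ℵ₀) = {m | (DD π m).Finite} := by
      ext m
      exact Cardinal.lt_aleph0_iff_set_finite
    rw [e]
    exact finite_complete hπ
  · have e : D π (fun S => ℵ₀ ≤ #S) = {m | (DD π m).Infinite} := by
      ext m
      exact (not_lt.symm).trans (not_congr Cardinal.lt_aleph0_iff_set_finite)
    rw [e]
    exact infinite_complete hπ
  · have e : D π (fun S => #S = ℵ₀) = {m | (DD π m).Countable ∧ (DD π m).Infinite} := by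
      ext m
      exact eq_aleph0_iff m
    rw [e]
    exact denumerable_complete hπ
  · intro κ h1 h2
    have e1 : D π (fun S => κ < #S) = {m | ¬ (DD π m).Countable} := by
      ext m
      exact lt_mk_iff h1 h2 m
    have e2 : D π (fun S => #S ≤ κ) = {m | (DD π m).Countable} := by
      ext m
      exact (not_lt.symm).trans ((not_congr (lt_mk_iff h1 h2 m)).trans not_not)
    rw [e1, e2]
    exact ⟨countable_complete hπ, uncountable_complete hπ⟩
  · intro κ h1 h2
    have e1 : D π (fun S => κ ≤ #S) = {m | ¬ (DD π m).Countable} := by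
      ext m
      exact le_mk_iff h1 h2 m
    have e2 : D π (fun S => #S < κ) = {m | (DD π m).Countable} := by
      ext m
      exact (not_le.symm).trans ((not_congr (le_mk_iff h1 h2 m)).trans not_not)
    rw [e1, e2]
    exact ⟨countable_complete hπ, uncountable_complete hπ⟩
  · have e : D π (fun S => #S = 𝔠) = {m | ¬ (DD π m).Countable} := by
      ext m
      exact eq_mk_iff m
    rw [e]
    exact uncountable_complete hπ
  · intro κ h1 h2
    rw [Set.eq_empty_iff_forall_notMem]
    intro m hm
    exact ne_mk h1 h2 m hm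
  · intro r h0 h1
    refine ⟨fun h => ⟨fun h2 => ⟨gt_complete hπ h h0 h2, le_complete hπ h h0 h2⟩,
      fun h2 => ⟨gem_complete hπ h h2 h1, ltm_complete hπ h h2 h1⟩,
      eqm_complete hπ h h0 h1⟩, fun h => ⟨?_, ?_, ?_, ?_, turing_equiv hπ h h0 h1⟩⟩
    · rw [Set.eq_empty_iff_forall_notMem]
      intro m hm
      exact ne_of_not_dce hπ h m hm
    · ext m
      show r ≤ mu.real (DD π m) ↔ r < mu.real (DD π m)
      exact ⟨fun h2 => lt_of_le_of_ne h2 (ne_of_not_dce hπ h m).symm, le_of_lt⟩
    · ext m
      show mu.real (DD π m) ≤ r ↔ ¬ r < mu.real (DD π m)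
      exact not_lt.symm
    · ext m
      show mu.real (DD π m) < r ↔ ¬ r < mu.real (DD π m)
      rw [not_lt]
      exact ⟨le_of_lt, fun h2 => lt_of_le_of_ne h2 (ne_of_not_dce hπ h m)⟩
  · rintro A (h | h)
    · exact dce_sigma1 h
    · exact dce_pi1 h

end Pool.Agent.Results.MP_02df5b_lc.DifferenceIndexSets
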